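import Mathlib
import Pool.Agent.Helper590.Hex.Line

set_option autoImplicit false

namespace Pool.Agent.Results.MP_e1e3b8_co.AffineSymmetry

/-- Some invertible real-affine map of the plane sends all six vertices of the regular hexagon
onto points of the set J. -/
def InscribesHexagon (J : Set ℂ) : Prop :=
  ∃ A : AffineEquiv ℝ ℂ ℂ, ∀ k : Fin 6,
    A (Complex.exp (2 * (Real.pi : ℂ) * Complex.I * ((k : ℕ) : ℂ) / 6)) ∈ J

/-- Jordan curves with an affine symmetry of order two or three inscribe an affinely regular
hexagon: (1) reflection in a line (up to an affine map B), the parametrisation carrying the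
reflection z ↦ z⁻¹ of the circle to the reflection of the plane; (2) reflection in a point c;
(3) rotation of order three (up to an affine map B). No regularity is assumed. -/
theorem result :
    (∀ f : Circle → ℂ, Continuous f → Function.Injective f →
      ∀ B : AffineEquiv ℝ ℂ ℂ, (∀ z : Circle, B (f z⁻¹) = (starRingEnd ℂ) (B (f z))) →
        InscribesHexagon (Set.range f))
    ∧ (∀ f : Circle → ℂ, Continuous f → Function.Injective f →
      ∀ c : ℂ, (∀ z ∈ Set.range f, 2 * c - z ∈ Set.range f) → InscribesHexagon (Set.range f))
    ∧ (∀ f : Circle → ℂ, Continuous f → Function.Injective f →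
      ∀ B : AffineEquiv ℝ ℂ ℂ,
        (∀ z ∈ Set.range f,
          B.symm (Complex.exp (2 * (Real.pi : ℂ) * Complex.I / 3) * B z) ∈ Set.range f) →
        InscribesHexagon (Set.range f)) := by
  refine ⟨?_, ?_, ?_⟩
  · intro f hf hinj B hsym
    exact Pool.Agent.Helper590.Hex.main_line f hf hinj B hsym
  · intro f hf hinj c hsym
    exact Pool.Agent.Helper590.Hex.main_sym f hf hinj c hsym
  · intro f hf hinj B hsym
    exact Pool.Agent.Helper590.Hex.main_three f hf hinj B hsym

end Pool.Agent.Results.MP_e1e3b8_co.AffineSymmetry
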